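import Pool.Agent.H39.Sign.TDefs
import Pool.Agent.H39.L.W5h93_EX_Sign
import Pool.Agent.H39.Fin
import Pool.Agent.H89.L.W5h93_EU_ProdE

/-!
# The sign conjecture and schemes with an action of a torus of complexity at most `n`
-/

set_option autoImplicit false

open CategoryTheory AlgebraicGeometry Pool.Agent.Y116.UV Pool.Agent.W5h68.SP
  Pool.Agent.Z125.UN

universe v

namespace Pool.Agent.H39.Sign

open Pool.Agent.H914 Pool.Agent.H914.VarClass Pool.Agent.H914.VarClass.Obj
  Pool.Agent.H914.WeilCohomology Pool.Agent.H447 Pool.Agent.W5h93.EX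
open Pool.Agent.W5h93.EV (sch Decomp)
open Pool.Agent.W5h93.EU (ft_open ft_closed)

variable {k : Type} [Field k]

lemma triple {Z X U : Sch k} {i : Z ⟶ X} {j : U ⟶ X} (h : Decomp i j) : IsTriple i j :=
  ⟨h.1, h.2.1, h.2.2⟩

lemma decomp {Z X U : Sch k} {i : Z ⟶ X} {j : U ⟶ X} (h : IsTriple i j) : Decomp i j :=
  ⟨h.closed, h.opened, h.compl⟩

lemma built_iff (n : ℕ) (X : Sch k) : Built n X ↔ Pool.Agent.W5h38.TV.Built n X := by
  constructor
  · intro h
    unfold Built at h
    induction h with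
    | gen X h => exact h.elim
    | torus X h => exact .torus X h
    | iso X Y hX e _ ih => exact .iso X Y hX e ih
    | total Z X U i j hX ht _ _ h1 h2 => exact .total Z X U i j hX (triple ht) h1 h2
    | opened Z X U i j hX ht _ _ h1 h2 => exact .opened Z X U i j hX (triple ht) h1 h2
    | closed Z X U i j hX ht _ _ h1 h2 => exact .closed Z X U i j hX (triple ht) h1 h2
  · intro h
    unfold Built
    induction h with
    | torus X h => exact .torus X h
    | iso X Y hX e _ ih => exact .iso X Y hX e ih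
    | total Z X U i j hX ht _ _ h1 h2 => exact .total Z X U i j hX (decomp ht) h1 h2
    | opened Z X U i j hX ht _ _ h1 h2 => exact .opened Z X U i j hX (decomp ht) h1 h2
    | closed Z X U i j hX ht _ _ h1 h2 => exact .closed Z X U i j hX (decomp ht) h1 h2

/-- The class of the varieties is a class of smooth proper irreducible schemes. -/
lemma isClass (𝒱 : VarClass k) : H89.Dev.IsClass (schemes 𝒱) :=
  ⟨(isClass_schemes 𝒱).smooth, (isClass_schemes 𝒱).proper, (isClass_schemes 𝒱).irreducible⟩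

lemma ft_iso {X Y : Sch k} (hX : FT True X) (e : Nonempty (X ≅ Y)) : FT True Y := by
  obtain ⟨e⟩ := e
  have h : IsIso e.inv.left := inferInstanceAs (IsIso ((Over.forget _).map e.inv))
  refine ⟨?_, ?_, fun _ => ?_⟩
  · have := hX.locallyOfFiniteType
    rw [← Over.w e.inv]
    infer_instance
  · have := hX.quasiCompact
    rw [← Over.w e.inv]
    infer_instance
  · have := hX.separated trivial
    rw [← Over.w e.inv]
    infer_instance

/-- The schemes are separated and of finite type. -/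
lemma ft_made {G : Sch k → Prop} (hG : ∀ X, G X → FT True X) {n : ℕ} {X : Sch k}
    (h : Made G n X) : FT True X := by
  induction h with
  | gen X h => exact hG X h
  | torus X h =>
    obtain ⟨N, m, κ, G, w, -, -, rfl⟩ := h
    exact ft_aff True
  | iso X Y hX e _ ih => exact ft_iso hX e
  | total Z X U i j hX ht _ _ h1 h2 => exact hX
  | opened Z X U i j hX ht _ _ h1 h2 => exact ft_open hX j ht.2.1
  | closed Z X U i j hX ht _ _ h1 h2 => exact ft_closed hX i ht.1

lemma ft_built {n : ℕ} {X : Sch k} (h : Built n X) : FT True X := ft_made (fun _ h => h.elim) h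

lemma made_bnd {G : Sch k → Prop} {n : ℕ} {P : Sch k → Prop} (hP : Bnd True P)
    (hG : ∀ X, G X → P X) (hB : ∀ X, Built n X → P X) (X : Sch k) (h : Made G n X) : P X := by
  induction h with
  | gen X h => exact hG X h
  | torus X h => exact hB X (.torus X h)
  | iso X Y hX e _ ih => exact hP.iso hX e ih
  | total Z X U i j hX ht _ _ hZ hU => exact hP.total i j hX (triple ht) hZ hU
  | opened Z X U i j hX ht _ _ hZ hX' => exact hP.opened i j hX (triple ht) hZ hX'
  | closed Z X U i j hX ht _ _ hX' hU => exact hP.closed i j hX (triple ht) hX' hU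

lemma built_of_class [PerfectField k] {P : Sch k → Prop} (hP : Bnd True P) {Q : Sch k → Prop}
    (hQ : H89.Dev.IsClass Q) {n : ℕ} (hM : H89.Dev.ModelsIn Q n) (hX : H89.Dev.ForClass Q P n)
    (X : Sch k) (h : Built n X) : P X :=
  H89.Dev.built_of_class hP hQ hM hX X ((built_iff n X).mp h)

lemma class_of_built [PerfectField k] {P : Sch k → Prop} (hP : Bnd True P) {Q : Sch k → Prop}
    (hQ : H89.Dev.IsClass Q) {n : ℕ} (h : ∀ X : Sch k, Built n X → P X) : H89.Dev.ForClass Q P n :=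
  H89.Dev.class_of_built hP hQ fun X hX => h X ((built_iff n X).mpr hX)

section

variable {𝒱 : VarClass k}

/-- The data: the cycles, the cohomology and the invariant. -/
structure Data (𝒱 : VarClass k) where
  ops : CycleOps 𝒱
  W : WeilCohomology.{0, v} ops
  η : Sch k → Sch k → ℤ → ℤ
  hη : IsPairDefect W η

/-- the property of the schemes -/
def Z (n : ℕ) (θ : Data.{v} 𝒱) (X : Sch k) : Prop := ∀ Y, Built n Y → ∀ c, θ.η X Y c = 0

lemma bnd_Z (n : ℕ) (θ : Data.{v} 𝒱) : Bnd True (Z n θ) where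
  iso hX e h Y hY := (bnd_additive (θ.hη.biadditive.left Y (ft_built hY))).iso hX e (h Y hY)
  total i j hX ht h h' Y hY :=
    (bnd_additive (θ.hη.biadditive.left Y (ft_built hY))).total i j hX ht (h Y hY) (h' Y hY)
  opened i j hX ht h h' Y hY :=
    (bnd_additive (θ.hη.biadditive.left Y (ft_built hY))).opened i j hX ht (h Y hY) (h' Y hY)
  closed i j hX ht h h' Y hY :=
    (bnd_additive (θ.hη.biadditive.left Y (ft_built hY))).closed i j hX ht (h Y hY) (h' Y hY)
  space m Y hY := (bnd_additive (θ.hη.biadditive.left Y (ft_built hY))).space m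
  jouanolou A _ _ _ m f U j hj hr h Y hY :=
    (bnd_additive (θ.hη.biadditive.left Y (ft_built hY))).jouanolou A m f U j hj hr (h Y hY)
  torus A _ _ _ h Y hY := (bnd_additive (θ.hη.biadditive.left Y (ft_built hY))).torus A (h Y hY)
  bundle A _ _ _ m f U j hj hr h Y hY :=
    (bnd_additive (θ.hη.biadditive.left Y (ft_built hY))).bundle A m f U j hj hr (h Y hY)

lemma list_lift {α β : Type*} {f : α → β} : ∀ {L : List β}, (∀ y ∈ L, ∃ x, f x = y) →
    ∃ M : List α, M.map f = L
  | [], _ => ⟨[], rfl⟩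
  | y :: L, h => by
    obtain ⟨x, hx⟩ := h y List.mem_cons_self
    obtain ⟨M, hM⟩ := list_lift (L := L) fun z hz => h z (List.mem_cons_of_mem _ hz)
    exact ⟨x :: M, by rw [List.map_cons, hx, hM]⟩

variable {ops : CycleOps 𝒱} {W : WeilCohomology.{0, v} ops} {η : Sch k → Sch k → ℤ → ℤ}

lemma pair_value (hη : IsPairDefect W η) {X : 𝒱.Obj} (hX : SignStd W X) (Y : 𝒱.Obj) (c : ℤ) :
    η (sch X.V) (sch Y.V) c = 0 := by
  rcases lt_or_ge c 0 with hc | hc
  · exact hη.neg X Y c hc
  · obtain ⟨m, rfl⟩ := Int.eq_ofNat_of_zero_le hc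
    exact (hη.value X Y m).trans (defect_of_sign hX Y m)

lemma sign_of_pair (hη : IsPairDefect W η) {X : 𝒱.Obj} (h : ∀ c, η (sch X.V) (sch X.V) c = 0) :
    SignStd W X := by
  apply sign_of_defect
  rw [← hη.value X X X.dim]
  exact h _

lemma ft_signed {X : Sch k} (h : Signed W X) : FT True X := by
  obtain ⟨X', -, rfl⟩ := h
  exact (isClass 𝒱).ft ⟨X', rfl⟩

end

section

variable [PerfectField k] {𝒱 : VarClass k}

/-- A variety which satisfies the sign conjecture has the property. -/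
lemma Z_of_sign {n : ℕ} (hM : H89.Dev.ModelsIn (schemes 𝒱) n) (θ : Data.{v} 𝒱) {X : 𝒱.Obj}
    (hX : SignStd θ.W X) : Z n θ (sch X.V) := by
  intro Y hY
  refine built_of_class (P := fun Y => ∀ c, θ.η (sch X.V) Y c = 0)
    (bnd_additive (θ.hη.biadditive.right (sch X.V) ((isClass 𝒱).ft ⟨X, rfl⟩))) (isClass 𝒱) hM ?_ Y hY
  rintro _ ⟨Y', rfl⟩ - c
  exact pair_value θ.hη hX Y' c

/-- **Finitely many varieties.** -/
theorem fin_list {n : ℕ} (hM : H89.Dev.ModelsIn (schemes 𝒱) n) (X : Sch k) (hX : Built n X) :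
    ∃ 𝒴 : List 𝒱.Obj, (∀ Y ∈ 𝒴, topologicalKrullDim Y.V.X ≤ n) ∧
      ∀ θ : Data.{v} 𝒱, (∀ Y ∈ 𝒴, SignStd θ.W Y) →
        (∀ Y, Built n Y → ∀ c, θ.η X Y c = 0) ∧
          ∀ X' : 𝒱.Obj, sch X'.V = X → SignStd θ.W X' := by
  obtain ⟨L, h1, h2⟩ := finGen_built (Z := Z (𝒱 := 𝒱) n) (fun θ => bnd_Z n θ) (isClass 𝒱) hM X
    ((built_iff n X).mp hX)
  obtain ⟨M, hML⟩ := list_lift (f := fun X : 𝒱.Obj => sch X.V) (L := L) fun y hy => (h1 y hy).1
  refine ⟨M, fun Y hY => ?_, fun θ hθ => ?_⟩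
  · have h3 : sch Y.V ∈ L := by
      rw [← hML]
      exact List.mem_map.mpr ⟨Y, hY, rfl⟩
    exact (h1 _ h3).2
  · have h4 : Z n θ X := by
      refine h2 θ fun Y hY => ?_
      rw [← hML] at hY
      obtain ⟨Y', hY', rfl⟩ := List.mem_map.mp hY
      exact Z_of_sign hM θ (hθ Y' hY')
    refine ⟨h4, ?_⟩
    rintro X' rfl
    exact sign_of_pair θ.hη (h4 _ hX)

variable {ops : CycleOps 𝒱} {W : WeilCohomology.{0, v} ops} {η : Sch k → Sch k → ℤ → ℤ}

theorem sign_iff_built (hη : IsPairDefect W η) {n : ℕ} (hM : H89.Dev.ModelsIn (schemes 𝒱) n) :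
    SignDim W n ↔ PairsVanish η (Built n) := by
  constructor
  · intro h X Y hX hY
    obtain ⟨L, h1, h2⟩ := fin_list hM X hX
    exact (h2 ⟨ops, W, η, hη⟩ fun Y' hY' => h Y' (h1 Y' hY')).1 Y hY
  · intro h X hX
    apply sign_of_pair hη
    have h1 : ∀ Y, Built n Y → ∀ c, η (sch X.V) Y c = 0 := fun Y hY =>
      class_of_built (P := fun X => ∀ c, η X Y c = 0)
        (bnd_additive (hη.biadditive.left Y (ft_built hY))) (isClass 𝒱)
        (fun X hX => h X Y hX hY) _ ⟨X, rfl⟩ hX
    exact class_of_built (P := fun Y => ∀ c, η (sch X.V) Y c = 0)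
      (bnd_additive (hη.biadditive.right (sch X.V) ((isClass 𝒱).ft ⟨X, rfl⟩))) (isClass 𝒱)
      h1 _ ⟨X, rfl⟩ hX

/-- all schemes of small dimension -/
theorem sign_iff_dim (hη : IsPairDefect W η) {n : ℕ} (hM : H89.Dev.ModelsIn (schemes 𝒱) n) :
    SignDim W n ↔
      PairsVanish η fun X => FT True X ∧ topologicalKrullDim X.left ≤ n := by
  constructor
  · intro h X Y hX hY
    have h1 : ∀ X' : 𝒱.Obj, topologicalKrullDim X'.V.X ≤ n → ∀ c, η (sch X'.V) Y c = 0 := by
      intro X' hX'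
      refine H89.Dev.devissage (P := fun Y => ∀ c, η (sch X'.V) Y c = 0)
        (bnd_additive (hη.biadditive.right (sch X'.V) ((isClass 𝒱).ft ⟨X', rfl⟩))) (isClass 𝒱) hM
        ?_ Y hY.1 hY.2
      rintro _ ⟨Y', rfl⟩ - c
      exact pair_value hη (h X' hX') Y' c
    refine H89.Dev.devissage (P := fun X => ∀ c, η X Y c = 0)
      (bnd_additive (hη.biadditive.left Y hY.1)) (isClass 𝒱) hM ?_ X hX.1 hX.2
    rintro _ ⟨X', rfl⟩ hX'
    exact h1 X' hX'
  · intro h X hX
    apply sign_of_pair hη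
    have h1 : FT True (sch X.V) := (isClass 𝒱).ft ⟨X, rfl⟩
    exact h _ _ ⟨h1, hX⟩ ⟨h1, hX⟩

theorem made_left (hη : IsPairDefect W η) {n : ℕ} (hM : H89.Dev.ModelsIn (schemes 𝒱) n)
    {X : 𝒱.Obj} (hX : SignStd W X) (Y : Sch k) (hY : Made (Signed W) n Y) :
    ∀ c, η (sch X.V) Y c = 0 := by
  have hb := bnd_additive (hη.biadditive.right (sch X.V) ((isClass 𝒱).ft ⟨X, rfl⟩))
  refine made_bnd hb ?_ (fun Y hY => built_of_class hb (isClass 𝒱) hM ?_ Y hY) Y hY
  · rintro _ ⟨Y', -, rfl⟩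
    exact pair_value hη hX Y'
  · rintro _ ⟨Y', rfl⟩ -
    exact pair_value hη hX Y'

/-- **The sign conjecture for varieties made of known pieces.** -/
theorem sign_made (hη : IsPairDefect W η) {n : ℕ} (hM : H89.Dev.ModelsIn (schemes 𝒱) n)
    (h : SignDim W n) (X : 𝒱.Obj) (hX : Made (Signed W) n (sch X.V)) : SignStd W X := by
  have key : ∀ X, Made (Signed W) n X → ∀ Y, Made (Signed W) n Y → ∀ c, η X Y c = 0 := by
    intro X hX Y hY
    have hb := bnd_additive (hη.biadditive.left Y (ft_made (fun _ => ft_signed) hY))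
    refine made_bnd hb ?_ (fun X hX => built_of_class hb (isClass 𝒱) hM ?_ X hX) X hX
    · rintro _ ⟨X', hs, rfl⟩
      exact made_left hη hM hs Y hY
    · rintro _ ⟨X', rfl⟩ hd
      exact made_left hη hM (h X' hd) Y hY
  exact sign_of_pair hη (key _ hX _ hX)

omit [PerfectField k] in
lemma sparse_built' (n : ℕ) : Sparse (k := k) n (Built n) := fun N c t f S b hf hS hc hb =>
  (built_iff n _).mpr (Pool.Agent.W5h38.TV.sparse_built n N c t f S b hf hS hc hb)

omit [PerfectField k] in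
lemma cones_built' (n : ℕ) : Cones (k := k) n (Built n) := fun m N r t g α b hg hd hb =>
  (built_iff n _).mpr (Pool.Agent.W5h38.TV.cones_built n m N r t g α b hg hd hb)

end

end Pool.Agent.H39.Sign
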