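import Pool.Agent.H39.L.W5h93_EX_SignDefs
import Pool.Agent.H89.Eu.TDefs

/-!
# The sign conjecture and schemes with an action of a torus of complexity at most `n`: definitions
-/

set_option autoImplicit false

open CategoryTheory AlgebraicGeometry Pool.Agent.Y116.UV

universe v

namespace Pool.Agent.H39.Sign

open Pool.Agent.H914 Pool.Agent.H447 Pool.Agent.W5h93.EX
open Pool.Agent.W5h93.EV (sch Decomp)
open Pool.Agent.H89.Eu (IsTorusScheme)

variable {k : Type} [Field k]

/-- The smallest class of schemes which contains the schemes in `G`, the closed subschemes of affine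
spaces stable under a torus, of complexity at most `n`, is closed under isomorphisms, and contains each
one of `X`, `Z`, `U` if it contains the two others, for closed subschemes `Z` of separated schemes `X`
of finite type with complement `U`. -/
inductive Made (G : Sch k → Prop) (n : ℕ) : Sch k → Prop
  | gen (X : Sch k) : G X → Made G n X
  | torus (X : Sch k) : IsTorusScheme n X → Made G n X
  | iso (X Y : Sch k) : FT True X → Nonempty (X ≅ Y) → Made G n X → Made G n Y
  | total (Z X U : Sch k) (i : Z ⟶ X) (j : U ⟶ X) : FT True X → Decomp i j → Made G n Z →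
      Made G n U → Made G n X
  | opened (Z X U : Sch k) (i : Z ⟶ X) (j : U ⟶ X) : FT True X → Decomp i j → Made G n Z →
      Made G n X → Made G n U
  | closed (Z X U : Sch k) (i : Z ⟶ X) (j : U ⟶ X) : FT True X → Decomp i j → Made G n X →
      Made G n U → Made G n Z

/-- The case without the generators `G`. -/
def Built (n : ℕ) (X : Sch k) : Prop := Made (fun _ => False) n X

/-- The varieties which satisfy the sign conjecture, as schemes. -/
def Signed {𝒱 : VarClass k} {ops : CycleOps 𝒱} (W : WeilCohomology.{0, v} ops) (X : Sch k) : Prop :=
  ∃ X' : 𝒱.Obj, SignStd W X' ∧ sch X'.V = X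

/-- `η X Y = 0` for all `X` and `Y` in the class `S`. -/
def PairsVanish (η : Sch k → Sch k → ℤ → ℤ) (S : Sch k → Prop) : Prop :=
  ∀ X Y, S X → S Y → ∀ c, η X Y c = 0

end Pool.Agent.H39.Sign
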